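import Pool.Agent.TH179.SD.Geo2

/-!
# Project SD, task G7e: the second de Rham cohomology of the manifold is spanned by `α`
-/

set_option autoImplicit false

open scoped ContDiff Topology
open Set Filter

noncomputable section

namespace Pool.Agent.TH124.SD
open Pool.Agent.TH179.SD

/-- covectors are the same as 1-forms -/
abbrev L1 : (V →L[ℝ] ℝ) ≃ₗᵢ[ℝ] Alt 1 :=
  ContinuousAlternatingMap.ofSubsingletonLIE (𝕜 := ℝ) (E := V) (F := ℝ) (0 : Fin 1)

theorem one_eq (l : V →L[ℝ] ℝ) : one l = L1 l := rfl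

theorem one_comp (l : V →L[ℝ] ℝ) (A : V →L[ℝ] V) :
    (one l).compContinuousLinearMap A = one (l.comp A) := by
  ext v
  simp [one]

theorem one_symm (m : Alt 1) : one (L1.symm m) = m := L1.apply_symm_apply m

theorem one_add (l l' : V →L[ℝ] ℝ) : one (l + l') = one l + one l' := map_add L1 l l'

theorem one_sub (l l' : V →L[ℝ] ℝ) : one (l - l') = one l - one l' := map_sub L1 l l'

theorem one_zero : one (0 : V →L[ℝ] ℝ) = 0 := map_zero L1

theorem contDiffOn_one {l : V → V →L[ℝ] ℝ} {s : Set V} (h : ContDiffOn ℝ ∞ l s) :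
    ContDiffOn ℝ ∞ (fun q => one (l q)) s :=
  L1.toContinuousLinearEquiv.contDiff.comp_contDiffOn h

theorem contDiffOn_symm {m : V → Alt 1} {s : Set V} (h : ContDiffOn ℝ ∞ m s) :
    ContDiffOn ℝ ∞ (fun q => L1.symm (m q)) s :=
  L1.symm.toContinuousLinearEquiv.contDiff.comp_contDiffOn h

theorem contDiffOn_fderiv {F : Type} [NormedAddCommGroup F] [NormedSpace ℝ F] {f : V → F}
    {s : Set V} (hs : IsOpen s) (hf : ContDiffOn ℝ ∞ f s) :
    ContDiffOn ℝ ∞ (fun q => fderiv ℝ f q) s :=
  hf.fderiv_of_isOpen hs (by simp)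

theorem contDiffOn_pull {m : V → Alt 1} {f : V → V} {s t : Set V} (hs : IsOpen s)
    (hm : ContDiffOn ℝ ∞ m t) (hf : ContDiffOn ℝ ∞ f s) (hst : MapsTo f s t) :
    ContDiffOn ℝ ∞ (fun q => (m (f q)).compContinuousLinearMap (fderiv ℝ f q)) s := by
  have h1 : ContDiffOn ℝ ∞ (fun q => L1.symm (m (f q))) s :=
    (contDiffOn_symm hm).comp hf hst
  have h2 : ContDiffOn ℝ ∞ (fun q => (L1.symm (m (f q))).comp (fderiv ℝ f q)) s :=
    h1.clm_comp (contDiffOn_fderiv hs hf)
  refine (contDiffOn_one h2).congr fun q _ => ?_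
  rw [← one_comp, one_symm]

theorem contDiffOn_one_fderiv {g : V → ℝ} {s : Set V} (hs : IsOpen s) (hg : ContDiffOn ℝ ∞ g s) :
    ContDiffOn ℝ ∞ (fun q => one (fderiv ℝ g q)) s :=
  contDiffOn_one (contDiffOn_fderiv hs hg)

theorem extDeriv_one_fderiv {g : V → ℝ} {s : Set V} (hs : IsOpen s) (hg : ContDiffOn ℝ ∞ g s)
    {q : V} (hq : q ∈ s) : extDeriv (fun q => one (fderiv ℝ g q)) q = 0 := by
  have h1 : (fun q => one (fderiv ℝ g q)) =
      extDeriv (fun x => ContinuousAlternatingMap.constOfIsEmpty ℝ V (Fin 0) (g x)) := by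
    funext q
    exact (extDeriv_constOfIsEmpty g q).symm
  rw [h1]
  refine extDeriv_extDeriv_apply (r := ∞) ?_ ?_
  · have := (ContinuousAlternatingMap.constOfIsEmptyLIE ℝ V ℝ (Fin 0)).toContinuousLinearEquiv.contDiff
      (n := ∞) |>.comp_contDiffAt q (hg.contDiffAt (hs.mem_nhds hq))
    exact this
  · simp only [minSmoothness_of_isRCLikeNormedField]
    exact WithTop.coe_le_coe.2 (le_top : (2 : ℕ∞) ≤ ⊤)

variable {M : Type} [TopologicalSpace M]

/-- the part of the chart `c` lying in `U` -/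
def part (D : Model M) (U : Set M) (c : Idx) : Set V := (D.φ c).symm ⁻¹' U

theorem cont_symm (D : Model M) (c : Idx) : Continuous (D.φ c).symm := by
  have h := (D.φ c).continuousOn_symm
  rw [D.target] at h
  exact continuousOn_univ.mp h

theorem isOpen_part (D : Model M) {U : Set M} (hU : IsOpen U) (c : Idx) : IsOpen (part D U c) :=
  hU.preimage (cont_symm D c)

theorem symm_tr (D : Model M) {c d : Idx} {q : V} (hq : q ∈ O c d) :
    (D.φ d).symm (tr c d q) = (D.φ c).symm q := by
  rw [← D.trans c d q hq]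
  exact (D.φ d).left_inv ((D.overlap c d q).2 hq)

theorem part_tr (D : Model M) {U : Set M} {c d : Idx} {q : V} (hq : q ∈ O c d)
    (hU : q ∈ part D U c) : tr c d q ∈ part D U d := by
  show (D.φ d).symm (tr c d q) ∈ U
  rw [symm_tr D hq]
  exact hU

theorem part_source (D : Model M) (c d : Idx) : part D (D.φ d).source c = O c d := by
  ext q
  exact D.overlap c d q

theorem O_self (c : Idx) : O c c = univ := by
  rcases c with j | j <;> simp [O]

theorem tr_self (c : Idx) : tr c c = id := by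
  rcases c with j | j <;> simp [tr]

/-- cocycle condition -/
theorem tr_tr (D : Model M) {c d e : Idx} {q : V} (h1 : q ∈ O c d) (h2 : q ∈ O c e) :
    tr c d q ∈ O d e ∧ tr d e (tr c d q) = tr c e q := by
  have h3 : tr c d q ∈ O d e := by
    rw [← D.overlap d e, symm_tr D h1, D.overlap c e]
    exact h2
  refine ⟨h3, ?_⟩
  rw [← D.trans d e _ h3, symm_tr D h1, D.trans c e q h2]

/-- `m` is a primitive of `w` on the open set `U` -/
structure Prim (D : Model M) (U : Set M) (w : Idx → V → Alt 2) (m : Idx → V → Alt 1) : Prop where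
  smooth : ∀ c, ContDiffOn ℝ ∞ (m c) (part D U c)
  compat : ∀ c d, ∀ q ∈ O c d, q ∈ part D U c →
    m c q = (m d (tr c d q)).compContinuousLinearMap (fderiv ℝ (tr c d) q)
  ext : ∀ c, ∀ q ∈ part D U c, extDeriv (m c) q = w c q

/-- a smooth function on `U` -/
def Sm (D : Model M) (U : Set M) (g : M → ℝ) : Prop :=
  ∀ c, ContDiffOn ℝ ∞ (fun q => g ((D.φ c).symm q)) (part D U c)

/-- its differential -/
def dd (D : Model M) (g : M → ℝ) (c : Idx) (q : V) : Alt 1 :=
  one (fderiv ℝ (fun q => g ((D.φ c).symm q)) q)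

theorem diffAt {F : Type} [NormedAddCommGroup F] [NormedSpace ℝ F] {f : V → F} {s : Set V}
    (hs : IsOpen s) (hf : ContDiffOn ℝ ∞ f s) {q : V} (hq : q ∈ s) : DifferentiableAt ℝ f q :=
  (hf.contDiffAt (hs.mem_nhds hq)).differentiableAt (by simp)

theorem dd_compat (hS : TaskSmooth) (D : Model M) {U : Set M} (hU : IsOpen U) {g : M → ℝ}
    (hg : Sm D U g) {c d : Idx} {q : V} (hq : q ∈ O c d) (hqU : q ∈ part D U c) :
    dd D g c q = (dd D g d (tr c d q)).compContinuousLinearMap (fderiv ℝ (tr c d) q) := by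
  unfold dd
  rw [one_comp]
  congr 1
  have h1 : (fun q => g ((D.φ c).symm q)) =ᶠ[𝓝 q] (fun q => g ((D.φ d).symm q)) ∘ tr c d := by
    filter_upwards [(hS c d).1.mem_nhds hq] with q' hq'
    show g ((D.φ c).symm q') = g ((D.φ d).symm (tr c d q'))
    rw [symm_tr D hq']
  rw [h1.fderiv_eq]
  refine fderiv_comp q ?_ ?_
  · exact diffAt (isOpen_part D hU d) (hg d) (part_tr D hq hqU)
  · exact diffAt (hS c d).1 (hS c d).2.2.1 hq

theorem Prim.sub_dd (hS : TaskSmooth) {D : Model M} {U : Set M} (hU : IsOpen U)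
    {w : Idx → V → Alt 2} {m : Idx → V → Alt 1} (hm : Prim D U w m) {g : M → ℝ} (hg : Sm D U g) :
    Prim D U w (fun c q => m c q - dd D g c q) where
  smooth c := (hm.smooth c).sub (contDiffOn_one_fderiv (isOpen_part D hU c) (hg c))
  compat c d q hq hqU := by
    rw [hm.compat c d q hq hqU, dd_compat hS D hU hg hq hqU]
    rfl
  ext c q hq := by
    have h1 := diffAt (isOpen_part D hU c) (hm.smooth c) hq
    have h2 := diffAt (isOpen_part D hU c)
      (contDiffOn_one_fderiv (isOpen_part D hU c) (hg c)) hq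
    have h3 := extDeriv_one_fderiv (isOpen_part D hU c) (hg c) hq
    have h4 : (fun q => m c q - dd D g c q) = m c + (-1 : ℝ) • (fun q => dd D g c q) := by
      funext q
      ext v
      simp [sub_eq_add_neg]
    have h2' : DifferentiableAt ℝ (fun q => dd D g c q) q := h2
    have h3' : extDeriv (fun q => dd D g c q) q = 0 := h3
    rw [h4, extDeriv_add h1 (h2'.const_smul (-1 : ℝ)), extDeriv_smul, h3', smul_zero, add_zero]
    exact hm.ext c q hq

theorem Prim.glue {D : Model M} {P Q : Set M} (hP : IsOpen P) (hQ : IsOpen Q)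
    {w : Idx → V → Alt 2} {m m' : Idx → V → Alt 1} (hm : Prim D P w m) (hm' : Prim D Q w m')
    (h : ∀ c, ∀ q ∈ part D P c, q ∈ part D Q c → m c q = m' c q) :
    ∃ n, Prim D (P ∪ Q) w n := by
  classical
  refine ⟨fun c q => if q ∈ part D P c then m c q else m' c q, ?_⟩
  have e1 : ∀ c, ∀ q ∈ part D P c,
      (fun q => if q ∈ part D P c then m c q else m' c q) =ᶠ[𝓝 q] m c := by
    intro c q hq
    filter_upwards [(isOpen_part D hP c).mem_nhds hq] with q' hq'
    simp [hq']
  have e2 : ∀ c, ∀ q ∈ part D Q c,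
      (fun q => if q ∈ part D P c then m c q else m' c q) =ᶠ[𝓝 q] m' c := by
    intro c q hq
    filter_upwards [(isOpen_part D hQ c).mem_nhds hq] with q' hq'
    by_cases hp : q' ∈ part D P c
    · simp only [hp, if_true]
      exact h c q' hp hq'
    · simp [hp]
  refine ⟨?_, ?_, ?_⟩
  · intro c q hq
    rcases hq with hq | hq
    · exact (((hm.smooth c).contDiffAt ((isOpen_part D hP c).mem_nhds hq)).congr_of_eventuallyEq
        (e1 c q hq)).contDiffWithinAt
    · exact (((hm'.smooth c).contDiffAt ((isOpen_part D hQ c).mem_nhds hq)).congr_of_eventuallyEq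
        (e2 c q hq)).contDiffWithinAt
  · intro c d q hq hqU
    have h1 : tr c d q ∈ part D P d ↔ q ∈ part D P c := by
      show (D.φ d).symm (tr c d q) ∈ P ↔ _
      rw [symm_tr D hq]
      rfl
    by_cases hp : q ∈ part D P c
    · simp only [hp, h1, if_true]
      exact hm.compat c d q hq hp
    · simp only [hp, h1, if_false]
      have hq2 : q ∈ part D Q c := by
        rcases hqU with h | h
        · exact absurd h hp
        · exact h
      exact hm'.compat c d q hq hq2
  · intro c q hq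
    rcases hq with hq | hq
    · rw [(e1 c q hq).extDeriv_eq]
      exact hm.ext c q hq
    · rw [(e2 c q hq).extDeriv_eq]
      exact hm'.ext c q hq

/-- Mayer-Vietoris -/
theorem Prim.mv (hS : TaskSmooth) (hC : TaskCut) [CompactSpace M] [T2Space M] {D : Model M}
    {P Q : Set M} (hP : IsOpen P) (hQ : IsOpen Q)
    {w : Idx → V → Alt 2} {m m' : Idx → V → Alt 1} (hm : Prim D P w m) (hm' : Prim D Q w m')
    {g : M → ℝ} (hg : Sm D (P ∩ Q) g)
    (h : ∀ c, ∀ q ∈ part D (P ∩ Q) c, m c q - m' c q = dd D g c q) :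
    ∃ n, Prim D (P ∪ Q) w n := by
  classical
  obtain ⟨ρ, hρ, h0, h1⟩ := hC M D P Q hP hQ
  have hPQ : IsOpen (P ∩ Q) := hP.inter hQ
  -- the two functions
  have hG1 : Sm D P (fun x => if x ∈ Q then ρ x * g x else 0) := by
    intro c q hq
    by_cases hqQ : q ∈ part D Q c
    · have hq2 : q ∈ part D (P ∩ Q) c := ⟨hq, hqQ⟩
      have e1 : (fun q => (fun x => if x ∈ Q then ρ x * g x else 0) ((D.φ c).symm q)) =ᶠ[𝓝 q]
          (fun q => ρ ((D.φ c).symm q) * g ((D.φ c).symm q)) := by
        filter_upwards [(isOpen_part D hQ c).mem_nhds hqQ] with q' hq'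
        have : (D.φ c).symm q' ∈ Q := hq'
        simp [this]
      refine (ContDiffAt.congr_of_eventuallyEq ?_ e1).contDiffWithinAt
      refine ContDiffAt.mul ?_ ?_
      · exact (hρ c).contDiffAt ((isOpen_part D (hP.union hQ) c).mem_nhds (Or.inl hq))
      · exact (hg c).contDiffAt ((isOpen_part D hPQ c).mem_nhds hq2)
    · have hx : ∀ᶠ y in 𝓝 ((D.φ c).symm q), ρ y = 0 := h0 _ hq hqQ
      have e1 : (fun q => (fun x => if x ∈ Q then ρ x * g x else 0) ((D.φ c).symm q)) =ᶠ[𝓝 q]
          (fun _ => (0 : ℝ)) := by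
        filter_upwards [(cont_symm D c).continuousAt.eventually hx] with q' hq'
        simp [hq']
      exact (ContDiffAt.congr_of_eventuallyEq contDiffAt_const e1).contDiffWithinAt
  have hG2 : Sm D Q (fun x => if x ∈ P then (ρ x - 1) * g x else 0) := by
    intro c q hq
    by_cases hqP : q ∈ part D P c
    · have hq2 : q ∈ part D (P ∩ Q) c := ⟨hqP, hq⟩
      have e1 : (fun q => (fun x => if x ∈ P then (ρ x - 1) * g x else 0) ((D.φ c).symm q)) =ᶠ[𝓝 q]
          (fun q => (ρ ((D.φ c).symm q) - 1) * g ((D.φ c).symm q)) := by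
        filter_upwards [(isOpen_part D hP c).mem_nhds hqP] with q' hq'
        have : (D.φ c).symm q' ∈ P := hq'
        simp [this]
      refine (ContDiffAt.congr_of_eventuallyEq ?_ e1).contDiffWithinAt
      refine ContDiffAt.mul ?_ ?_
      · exact ((hρ c).contDiffAt ((isOpen_part D (hP.union hQ) c).mem_nhds (Or.inr hq))).sub
          contDiffAt_const
      · exact (hg c).contDiffAt ((isOpen_part D hPQ c).mem_nhds hq2)
    · have hx : ∀ᶠ y in 𝓝 ((D.φ c).symm q), ρ y = 1 := h1 _ hq hqP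
      have e1 : (fun q => (fun x => if x ∈ P then (ρ x - 1) * g x else 0) ((D.φ c).symm q)) =ᶠ[𝓝 q]
          (fun _ => (0 : ℝ)) := by
        filter_upwards [(cont_symm D c).continuousAt.eventually hx] with q' hq'
        simp [hq']
      exact (ContDiffAt.congr_of_eventuallyEq contDiffAt_const e1).contDiffWithinAt
  refine Prim.glue hP hQ (hm.sub_dd hS hP hG1) (hm'.sub_dd hS hQ hG2) ?_
  intro c q hqP hqQ
  have hq2 : q ∈ part D (P ∩ Q) c := ⟨hqP, hqQ⟩
  have h3 := h c q hq2
  have h4 : dd D (fun x => if x ∈ Q then ρ x * g x else 0) c q -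
      dd D (fun x => if x ∈ P then (ρ x - 1) * g x else 0) c q = dd D g c q := by
    unfold dd
    rw [← one_sub]
    congr 1
    have d1 := diffAt (isOpen_part D hP c) (hG1 c) hqP
    have d2 := diffAt (isOpen_part D hQ c) (hG2 c) hqQ
    rw [← fderiv_fun_sub d1 d2]
    refine Filter.EventuallyEq.fderiv_eq ?_
    filter_upwards [(isOpen_part D hPQ c).mem_nhds hq2] with q' hq'
    have a1 : (D.φ c).symm q' ∈ P := hq'.1
    have a2 : (D.φ c).symm q' ∈ Q := hq'.2
    simp only [a1, a2, if_true]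
    ring
  have h5 : m c q = m' c q + dd D g c q := by rw [← h3]; abel
  rw [h5, ← h4]
  abel

/-- a primitive in a chart is a primitive on the domain of the chart -/
theorem Prim.chart (hS : TaskSmooth) (D : Model M) {w : Idx → V → Alt 2} (hw : IsF 2 w) (k : Idx)
    {m0 : V → Alt 1} (hm0 : ContDiff ℝ ∞ m0) (hd : ∀ q, extDeriv m0 q = w k q) :
    Prim D (D.φ k).source w
      (fun c q => (m0 (tr c k q)).compContinuousLinearMap (fderiv ℝ (tr c k) q)) where
  smooth c := by
    rw [part_source]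
    exact contDiffOn_pull (hS c k).1 hm0.contDiffOn (hS c k).2.2.1 (mapsTo_univ _ _)
  compat c d q hq hqU := by
    rw [part_source] at hqU
    have h1 := tr_tr D hq hqU
    have h2 : tr c k =ᶠ[𝓝 q] tr d k ∘ tr c d := by
      filter_upwards [(hS c d).1.mem_nhds hq, (hS c k).1.mem_nhds hqU] with q' hq' hq''
      exact (tr_tr D hq' hq'').2.symm
    have h3 : fderiv ℝ (tr c k) q =
        (fderiv ℝ (tr d k) (tr c d q)).comp (fderiv ℝ (tr c d) q) := by
      rw [h2.fderiv_eq]
      refine fderiv_comp q ?_ ?_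
      · exact diffAt (hS d k).1 (hS d k).2.2.1 h1.1
      · exact diffAt (hS c d).1 (hS c d).2.2.1 hq
    rw [h1.2, h3]
    rfl
  ext c q hq := by
    rw [part_source] at hq
    rw [extDeriv_pullback (r := ∞) (hm0.differentiable (by simp)).differentiableAt
      ((hS c k).2.2.1.contDiffAt ((hS c k).1.mem_nhds hq)), hd, ← hw.compat c k q hq]
    simp only [minSmoothness_of_isRCLikeNormedField]
    exact WithTop.coe_le_coe.2 (le_top : (2 : ℕ∞) ≤ ⊤)

/-- the step of the induction: add one chart -/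
theorem Prim.step (hS : TaskSmooth) (hC : TaskCut) [CompactSpace M] [T2Space M] {D : Model M}
    {P : Set M} (hP : IsOpen P) {w : Idx → V → Alt 2} (hw : IsF 2 w) {m : Idx → V → Alt 1}
    (hm : Prim D P w m) (k : Idx) {m0 : V → Alt 1} (hm0 : ContDiff ℝ ∞ m0)
    (hd : ∀ q, extDeriv m0 q = w k q) {g : V → ℝ} (hg : ContDiffOn ℝ ∞ g (part D P k))
    (h : ∀ q ∈ part D P k, m k q - m0 q = one (fderiv ℝ g q)) :
    ∃ n, Prim D (P ∪ (D.φ k).source) w n := by
  have hQ : IsOpen (D.φ k).source := (D.φ k).open_source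
  have e1 : ∀ c, ∀ q ∈ O c k, (fun q => g (D.φ k ((D.φ c).symm q))) =ᶠ[𝓝 q] g ∘ tr c k := by
    intro c q hq
    filter_upwards [(hS c k).1.mem_nhds hq] with q' hq'
    show g (D.φ k ((D.φ c).symm q')) = g (tr c k q')
    rw [D.trans c k q' hq']
  have hk : ∀ c, ∀ q ∈ part D (P ∩ (D.φ k).source) c, q ∈ O c k ∧ tr c k q ∈ part D P k := by
    intro c q hq
    have h1 : q ∈ O c k := by rw [← part_source D]; exact hq.2
    exact ⟨h1, part_tr D h1 hq.1⟩
  refine Prim.mv hS hC hP hQ hm (Prim.chart hS D hw k hm0 hd) (g := fun x => g (D.φ k x)) ?_ ?_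
  · intro c q hq
    obtain ⟨h1, h2⟩ := hk c q hq
    refine (ContDiffAt.congr_of_eventuallyEq ?_ (e1 c q h1)).contDiffWithinAt
    refine ContDiffAt.comp q ?_ ?_
    · exact hg.contDiffAt ((isOpen_part D hP k).mem_nhds h2)
    · exact (hS c k).2.2.1.contDiffAt ((hS c k).1.mem_nhds h1)
  · intro c q hq
    obtain ⟨h1, h2⟩ := hk c q hq
    unfold dd
    rw [(e1 c q h1).fderiv_eq, fderiv_comp q (diffAt (isOpen_part D hP k) hg h2)
      (diffAt (hS c k).1 (hS c k).2.2.1 h1), ← one_comp, ← h _ h2, hm.compat c k q h1 hq.1]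
    rfl

/-- the step, when the overlap is the complement of a small subspace -/
theorem Prim.step' (hS : TaskSmooth) (h1 : TaskP1) (h2 : TaskP2) (hC : TaskCut)
    [CompactSpace M] [T2Space M] {D : Model M}
    {P : Set M} (hP : IsOpen P) {w : Idx → V → Alt 2} (hw : IsF 2 w)
    (hcl : ∀ c q, extDeriv (w c) q = 0) {m : Idx → V → Alt 1}
    (hm : Prim D P w m) (k : Idx) (S : Submodule ℝ V) (hS5 : Module.finrank ℝ S ≤ 5)
    (hpart : part D P k = {q | q ∉ S}) :
    ∃ n, Prim D (P ∪ (D.φ k).source) w n := by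
  obtain ⟨m0, hm0, hd⟩ := h2 (w k) (hw.smooth k) (hcl k)
  have hsm : ContDiffOn ℝ ∞ (m k - m0) {q | q ∉ S} := by
    rw [← hpart]
    exact (hm.smooth k).sub hm0.contDiffOn
  have hcl' : ∀ q, q ∉ S → extDeriv (m k - m0) q = 0 := by
    intro q hq
    have hq' : q ∈ part D P k := by rw [hpart]; exact hq
    have a1 := diffAt (isOpen_part D hP k) (hm.smooth k) hq'
    have a2 : DifferentiableAt ℝ m0 q := (hm0.differentiable (by simp)).differentiableAt
    have h4 : m k - m0 = m k + (-1 : ℝ) • m0 := by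
      funext q
      ext v
      simp [sub_eq_add_neg]
    rw [h4, extDeriv_add a1 (a2.const_smul (-1 : ℝ)), extDeriv_smul, hm.ext k q hq', hd]
    ext v
    simp
  obtain ⟨g, hg, hgd⟩ := h1 S hS5 (m k - m0) hsm hcl'
  refine Prim.step hS hC hP hw hm k hm0 hd (g := g) ?_ ?_
  · rw [hpart]; exact hg
  · intro q hq
    rw [hpart] at hq
    exact hgd q hq

end Pool.Agent.TH124.SD
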