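import Pool.Agent.TH124.SD.H2

/-!
# Project SD, task G7e, part 2: geometry of the cover and conclusion
-/

set_option autoImplicit false

open scoped ContDiff Topology
open Set Filter

noncomputable section

namespace Pool.Agent.TH124.SD
open Pool.Agent.TH179.SD

/-- `na q = 0` -/
def SA : Submodule ℝ V where
  carrier := {q | q 0 = 0 ∧ (q 1).re = 0}
  add_mem' := by
    rintro a b ⟨h1, h2⟩ ⟨h3, h4⟩
    exact ⟨by simp [h1, h3], by simp [h2, h4]⟩
  zero_mem' := by simp
  smul_mem' := by
    rintro c a ⟨h1, h2⟩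
    exact ⟨by simp [h1], by simp [h2]⟩

/-- `nb q = 0` -/
def SB : Submodule ℝ V where
  carrier := {q | (q 1).im = 0 ∧ q 2 = 0 ∧ q 3 = 0}
  add_mem' := by
    rintro a b ⟨h1, h2, h3⟩ ⟨h4, h5, h6⟩
    exact ⟨by simp [h1, h4], by simp [h2, h5], by simp [h3, h6]⟩
  zero_mem' := by simp
  smul_mem' := by
    rintro c a ⟨h1, h2, h3⟩
    exact ⟨by simp [h1], by simp [h2], by simp [h3]⟩

/-- `q₀ = q₁ = 0` -/
def S1 : Submodule ℝ V where
  carrier := {q | q 0 = 0 ∧ q 1 = 0}
  add_mem' := by
    rintro a b ⟨h1, h2⟩ ⟨h3, h4⟩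
    exact ⟨by simp [h1, h3], by simp [h2, h4]⟩
  zero_mem' := by simp
  smul_mem' := by
    rintro c a ⟨h1, h2⟩
    exact ⟨by simp [h1], by simp [h2]⟩

/-- `q₀ = q₁ = q₂ = 0` -/
def S2 : Submodule ℝ V where
  carrier := {q | q 0 = 0 ∧ q 1 = 0 ∧ q 2 = 0}
  add_mem' := by
    rintro a b ⟨h1, h2, h3⟩ ⟨h4, h5, h6⟩
    exact ⟨by simp [h1, h4], by simp [h2, h5], by simp [h3, h6]⟩
  zero_mem' := by simp
  smul_mem' := by
    rintro c a ⟨h1, h2, h3⟩
    exact ⟨by simp [h1], by simp [h2], by simp [h3]⟩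

theorem finrank_SA : Module.finrank ℝ SA ≤ 5 := by
  let f : SA →ₗ[ℝ] (Fin 5 → ℝ) :=
    { toFun := fun q => ![(q.1 1).im, (q.1 2).re, (q.1 2).im, (q.1 3).re, (q.1 3).im]
      map_add' := by
        intro a b
        ext i
        fin_cases i <;> simp
      map_smul' := by
        intro c a
        ext i
        fin_cases i <;> simp }
  have hf : Function.Injective f := by
    rw [← LinearMap.ker_eq_bot, LinearMap.ker_eq_bot']
    rintro ⟨q, h1, h2⟩ hq
    have e0 := congrFun hq 0
    have e1 := congrFun hq 1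
    have e2 := congrFun hq 2
    have e3 := congrFun hq 3
    have e4 := congrFun hq 4
    simp [f] at e0 e1 e2 e3 e4
    apply Subtype.ext
    funext i
    fin_cases i
    · exact h1
    · exact Complex.ext h2 e0
    · exact Complex.ext e1 e2
    · exact Complex.ext e3 e4
  have := LinearMap.finrank_le_finrank_of_injective hf
  simpa using this

theorem finrank_SB : Module.finrank ℝ SB ≤ 5 := by
  let f : SB →ₗ[ℝ] (Fin 5 → ℝ) :=
    { toFun := fun q => ![(q.1 0).re, (q.1 0).im, (q.1 1).re, 0, 0]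
      map_add' := by
        intro a b
        ext i
        fin_cases i <;> simp
      map_smul' := by
        intro c a
        ext i
        fin_cases i <;> simp }
  have hf : Function.Injective f := by
    rw [← LinearMap.ker_eq_bot, LinearMap.ker_eq_bot']
    rintro ⟨q, h1, h2, h3⟩ hq
    have e0 := congrFun hq 0
    have e1 := congrFun hq 1
    have e2 := congrFun hq 2
    simp [f] at e0 e1 e2
    apply Subtype.ext
    funext i
    fin_cases i
    · exact Complex.ext e0 e1
    · exact Complex.ext e2 h1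
    · exact h2
    · exact h3
  have := LinearMap.finrank_le_finrank_of_injective hf
  simpa using this

theorem finrank_S1 : Module.finrank ℝ S1 ≤ 5 := by
  refine le_trans (Submodule.finrank_mono ?_) finrank_SA
  rintro q ⟨h1, h2⟩
  exact ⟨h1, by simp [h2]⟩

theorem finrank_S2 : Module.finrank ℝ S2 ≤ 5 := by
  refine le_trans (Submodule.finrank_mono ?_) finrank_S1
  rintro q ⟨h1, h2, h3⟩
  exact ⟨h1, h2⟩

theorem na_zero (q : V) : na q = 0 ↔ q ∈ SA := by
  unfold na
  constructor
  · intro h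
    have h1 : (q 0).re = 0 := by nlinarith [sq_nonneg (q 0).re, sq_nonneg (q 0).im, sq_nonneg (q 1).re]
    have h2 : (q 0).im = 0 := by nlinarith [sq_nonneg (q 0).re, sq_nonneg (q 0).im, sq_nonneg (q 1).re]
    have h3 : (q 1).re = 0 := by nlinarith [sq_nonneg (q 0).re, sq_nonneg (q 0).im, sq_nonneg (q 1).re]
    exact ⟨Complex.ext h1 h2, h3⟩
  · rintro ⟨h1, h2⟩
    simp [h1, h2]

theorem nb_zero (q : V) : nb q = 0 ↔ q ∈ SB := by
  unfold nb
  constructor
  · intro h
    have p1 := sq_nonneg (q 1).im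
    have p2 := sq_nonneg (q 2).re
    have p3 := sq_nonneg (q 2).im
    have p4 := sq_nonneg (q 3).re
    have p5 := sq_nonneg (q 3).im
    have h1 : (q 1).im = 0 := pow_eq_zero_iff (two_ne_zero) |>.1 (by linarith)
    have h2 : (q 2).re = 0 := pow_eq_zero_iff (two_ne_zero) |>.1 (by linarith)
    have h3 : (q 2).im = 0 := pow_eq_zero_iff (two_ne_zero) |>.1 (by linarith)
    have h4 : (q 3).re = 0 := pow_eq_zero_iff (two_ne_zero) |>.1 (by linarith)
    have h5 : (q 3).im = 0 := pow_eq_zero_iff (two_ne_zero) |>.1 (by linarith)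
    exact ⟨h1, Complex.ext h2 h3, Complex.ext h4 h5⟩
  · rintro ⟨h1, h2, h3⟩
    simp [h1, h2, h3]

theorem na_or_nb (w : V) (hw : w ≠ 0) : na w ≠ 0 ∨ nb w ≠ 0 := by
  by_contra h
  push Not at h
  obtain ⟨h1, h2⟩ := h
  rw [na_zero] at h1
  rw [nb_zero] at h2
  apply hw
  funext i
  fin_cases i
  · exact h1.1
  · exact Complex.ext h1.2 h2.1
  · exact h2.2.1
  · exact h2.2.2

theorem O_lr (j : Fin 4) (d : Fin 3) :
    O (Sum.inl j) (Sum.inr d) = {q | q j ≠ 0 ∧ bd j q ∈ rngW (Sum.inr d)} := rfl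

variable {M : Type} [TopologicalSpace M]

/-- `M` minus the exceptional divisor -/
def P3 (D : Model M) : Set M :=
  (D.φ (Sum.inr 2)).source ∪ (D.φ (Sum.inr 0)).source ∪ (D.φ (Sum.inr 1)).source

theorem part_union (D : Model M) (U U' : Set M) (c : Idx) :
    part D (U ∪ U') c = part D U c ∪ part D U' c := rfl

theorem part_P3 (D : Model M) (j : Fin 4) : part D (P3 D) (Sum.inl j) = {q | q j ≠ 0} := by
  unfold P3
  rw [part_union, part_union, part_source, part_source, part_source, O_lr, O_lr, O_lr]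
  ext q
  simp only [mem_union, mem_ofPred_eq]
  constructor
  · rintro ((h | h) | h) <;> exact h.1
  · intro h
    have h1 : bd j q ≠ 0 := by
      intro h2
      have := congrFun h2 j
      simp [bd] at this
      exact h this
    rcases na_or_nb _ h1 with h2 | h2
    · exact Or.inl (Or.inr ⟨h, h2⟩)
    · exact Or.inr ⟨h, h2⟩

theorem P3_inX (D : Model M) (c : Idx) : part D (P3 D) c ⊆ inX c := by
  rcases c with j | j
  · rw [part_P3]
    exact subset_rfl
  · exact subset_univ _

theorem isF_sub {k : ℕ} {w a : Idx → V → Alt k} (hw : IsF k w) (ha : IsF k a) (t : ℝ) :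
    IsF k (fun c q => w c q - t • a c q) where
  smooth c := (hw.smooth c).sub ((ha.smooth c).const_smul t)
  compat c d q hq := by
    rw [hw.compat c d q hq, ha.compat c d q hq]
    ext v
    simp

theorem extDeriv_sub_smul {k : ℕ} {a b : V → Alt k} {q : V} (t : ℝ) (ha : DifferentiableAt ℝ a q)
    (hb : DifferentiableAt ℝ b q) :
    extDeriv (fun q => a q - t • b q) q = extDeriv a q - t • extDeriv b q := by
  have h4 : (fun q => a q - t • b q) = a + (-t : ℝ) • b := by
    funext q
    ext v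
    simp [sub_eq_add_neg]
  rw [h4, extDeriv_add ha (hb.const_smul (-t : ℝ)), extDeriv_smul]
  ext v
  simp [sub_eq_add_neg]

theorem taskH2 : TaskH2' := by
  intro hS hP1 hP1c hP2 hC M _ _ _ D α l n hα w hw hcl
  -- the three charts of `S³ × S⁵` minus the point
  obtain ⟨m2, hm2, hd2⟩ := hP2 (w (Sum.inr 2)) (hw.smooth _) (hcl _)
  have s0 := Prim.chart hS D hw (Sum.inr 2) hm2 hd2
  obtain ⟨mA, s1⟩ := Prim.step' hS hP1 hP2 hC (D.φ (Sum.inr 2)).open_source hw hcl s0 (Sum.inr 0)
    SB finrank_SB (by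
      rw [part_source]
      have : O (Sum.inr 0) (Sum.inr 2) = {q | nb q ≠ 0} := by simp [O]
      rw [this]
      ext q
      simp only [mem_ofPred_eq]
      exact not_congr (nb_zero q))
  obtain ⟨mX, s2⟩ := Prim.step' hS hP1 hP2 hC
    ((D.φ (Sum.inr 2)).open_source.union (D.φ (Sum.inr 0)).open_source) hw hcl s1 (Sum.inr 1)
    SA finrank_SA (by
      rw [part_union, part_source, part_source]
      have e1 : O (Sum.inr 1) (Sum.inr 2) = {q | na q ≠ 0} := by simp [O]
      have e2 : O (Sum.inr 1) (Sum.inr 0) = {q | na q ≠ 0 ∧ nb q ≠ 0} := by simp [O]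
      rw [e1, e2]
      ext q
      simp only [mem_union, mem_ofPred_eq]
      rw [← na_zero q]
      tauto)
  change Prim D (P3 D) w mX at s2
  have hP3 : IsOpen (P3 D) := ((D.φ (Sum.inr 2)).open_source.union
    (D.φ (Sum.inr 0)).open_source).union (D.φ (Sum.inr 1)).open_source
  -- the chart `inl 0`
  obtain ⟨m0, hm0, hd0⟩ := hP2 (w (Sum.inl 0)) (hw.smooth _) (hcl _)
  have hsm : ContDiffOn ℝ ∞ (fun q => mX (Sum.inl 0) q - (1 : ℝ) • m0 q) {q | q 0 ≠ 0} := by
    rw [← part_P3 D 0]
    exact (s2.smooth (Sum.inl 0)).sub (hm0.const_smul (1 : ℝ)).contDiffOn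
  obtain ⟨t, g, hg, hgd⟩ := hP1c _ hsm (by
    intro q hq
    have hq' : q ∈ part D (P3 D) (Sum.inl 0) := by rw [part_P3 D 0]; exact hq
    rw [extDeriv_sub_smul 1 (diffAt (isOpen_part D hP3 _) (s2.smooth (Sum.inl 0)) hq')
      (hm0.differentiable (by simp)).differentiableAt, s2.ext _ _ hq', hd0, one_smul, sub_self])
  -- the corrected form
  have hw' : IsF 2 (fun c q => w c q - t • α c q) := isF_sub hw hα.form t
  have hcl' : ∀ c q, extDeriv ((fun c q => w c q - t • α c q) c) q = 0 := by
    intro c q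
    show extDeriv (fun q => w c q - t • α c q) q = 0
    rw [extDeriv_sub_smul t ((hw.smooth c).differentiable (by simp)).differentiableAt
      ((hα.form.smooth c).differentiable (by simp)).differentiableAt, hcl, hα.closed, smul_zero,
      sub_zero]
  have t3 : Prim D (P3 D) (fun c q => w c q - t • α c q) (fun c q => mX c q - t • l c q) := by
    refine ⟨?_, ?_, ?_⟩
    · intro c
      exact (s2.smooth c).sub (((hα.smoothl c).mono (P3_inX D c)).const_smul t)
    · intro c d q hq hqU
      rw [s2.compat c d q hq hqU, hα.compatl c d q hq (P3_inX D c hqU)]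
      ext v
      simp
    · intro c q hq
      have hop : IsOpen (inX c) := by
        rcases c with j | j
        · exact isOpen_ne_fun (continuous_apply j) continuous_const
        · exact isOpen_univ
      rw [extDeriv_sub_smul t (diffAt (isOpen_part D hP3 _) (s2.smooth c) hq)
        (diffAt hop (hα.smoothl c) (P3_inX D c hq)), s2.ext c q hq, hα.dl c q (P3_inX D c hq)]
  obtain ⟨n0, t4⟩ := Prim.step hS hC hP3 hw' t3 (Sum.inl 0) (m0 := fun q => m0 q - t • n q)
    (hm0.sub (hα.smoothn.const_smul t)) (by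
      intro q
      rw [extDeriv_sub_smul t (hm0.differentiable (by simp)).differentiableAt
        (hα.smoothn.differentiable (by simp)).differentiableAt, hd0, hα.dn]) (g := g)
    (by rw [part_P3]; exact hg) (by
      intro q hq
      rw [part_P3] at hq
      have h1 := hgd q hq
      have h2 := hα.diff q hq
      have h3 : mX (Sum.inl 0) q = m0 q + (t • one (darg q) + one (fderiv ℝ g q)) := by
        rw [← h1]
        ext v
        simp
      have h4 : l (Sum.inl 0) q = n q + one (darg q) := by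
        rw [← h2]
        abel
      rw [h3, h4]
      ext v
      simp
      ring)
  -- the other three charts
  have o4 : IsOpen (P3 D ∪ (D.φ (Sum.inl 0)).source) := hP3.union (D.φ (Sum.inl 0)).open_source
  obtain ⟨n1, t5⟩ := Prim.step' hS hP1 hP2 hC o4 hw' hcl' t4 (Sum.inl 1) S1 finrank_S1 (by
    rw [part_union, part_P3, part_source]
    have : O (Sum.inl 1) (Sum.inl 0) = {v | v 0 ≠ 0} := by simp [O]
    rw [this]
    ext q
    simp only [mem_union, mem_ofPred_eq]
    have : q ∈ S1 ↔ q 0 = 0 ∧ q 1 = 0 := Iff.rfl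
    rw [this]
    tauto)
  have o5 := o4.union (D.φ (Sum.inl 1)).open_source
  obtain ⟨n2, t6⟩ := Prim.step' hS hP1 hP2 hC o5 hw' hcl' t5 (Sum.inl 2) S2 finrank_S2 (by
    rw [part_union, part_union, part_P3, part_source, part_source]
    have e1 : O (Sum.inl 2) (Sum.inl 0) = {v | v 0 ≠ 0} := by simp [O]
    have e2 : O (Sum.inl 2) (Sum.inl 1) = {v | v 1 ≠ 0} := by simp [O]
    rw [e1, e2]
    ext q
    simp only [mem_union, mem_ofPred_eq]
    have : q ∈ S2 ↔ q 0 = 0 ∧ q 1 = 0 ∧ q 2 = 0 := Iff.rfl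
    rw [this]
    tauto)
  have o6 := o5.union (D.φ (Sum.inl 2)).open_source
  obtain ⟨n3, t7⟩ := Prim.step' hS hP1 hP2 hC o6 hw' hcl' t6 (Sum.inl 3) ⊥ (by simp) (by
    rw [part_union, part_union, part_union, part_P3, part_source, part_source, part_source]
    have e1 : O (Sum.inl 3) (Sum.inl 0) = {v | v 0 ≠ 0} := by simp [O]
    have e2 : O (Sum.inl 3) (Sum.inl 1) = {v | v 1 ≠ 0} := by simp [O]
    have e3 : O (Sum.inl 3) (Sum.inl 2) = {v | v 2 ≠ 0} := by simp [O]
    rw [e1, e2, e3]
    ext q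
    simp only [mem_union, mem_ofPred_eq, Submodule.mem_bot]
    constructor
    · rintro (((h | h) | h) | h) h2 <;> exact h (by rw [h2]; rfl)
    · intro h
      by_contra h2
      push Not at h2
      apply h
      funext i
      fin_cases i
      · exact h2.1.1.2
      · exact h2.1.2
      · exact h2.2
      · exact h2.1.1.1)
  -- everything is covered
  have hall : ∀ c (q : V), q ∈ part D (P3 D ∪ (D.φ (Sum.inl 0)).source ∪ (D.φ (Sum.inl 1)).source ∪
      (D.φ (Sum.inl 2)).source ∪ (D.φ (Sum.inl 3)).source) c := by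
    intro c q
    obtain ⟨d, hd⟩ := D.cover ((D.φ c).symm q)
    rcases d with j | j
    · fin_cases j
      · exact Or.inl (Or.inl (Or.inl (Or.inr hd)))
      · exact Or.inl (Or.inl (Or.inr hd))
      · exact Or.inl (Or.inr hd)
      · exact Or.inr hd
    · refine Or.inl (Or.inl (Or.inl (Or.inl ?_)))
      fin_cases j
      · exact Or.inl (Or.inr hd)
      · exact Or.inr hd
      · exact Or.inl (Or.inl hd)
  refine ⟨t, n3, ⟨?_, ?_⟩, ?_⟩
  · intro c
    rw [← contDiffOn_univ]
    exact (t7.smooth c).mono fun q _ => hall c q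
  · intro c d q hq
    exact t7.compat c d q hq (hall c q)
  · intro c q
    rw [t7.ext c q (hall c q)]
    abel

end Pool.Agent.TH124.SD
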